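import Pool.Agent.W_b58c63_m1.SPlB

/-!
# The fundamental lemma of the sieve for an arbitrary dimension `κ` (MP_d33b62, section T1; helper47)
-/

set_option autoImplicit false

noncomputable section

open Finset

namespace Pool.Agent.Wd33b62k

open Pool.Agent.M58

/-- The sums of a density of dimension `κ` over the blocks `Pz z j` are bounded. -/
theorem SumBlock (κ : ℝ) (hκ : 0 ≤ κ) : ∃ S : ℝ, 1 ≤ S ∧ ∀ (z : ℝ) (j : ℕ) (g : ℕ → ℝ), 2 ≤ z →
    (∀ p, p.Prime → 0 ≤ g p ∧ g p ≤ 3 / 4 ∧ g p ≤ κ / p) → ∑ p ∈ Pz z j, g p ≤ S := by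
  obtain ⟨S, hS1, hS⟩ := SPlB_S0
  refine ⟨1 + κ * S, ?_, ?_⟩
  · have : 0 ≤ κ * S := by positivity
    linarith
  intro z j g hz hg
  have h1 : ∑ p ∈ Pz z j, (1 : ℝ) / p ≤ S := by
    refine hS z j (fun p => 1 / (p : ℝ)) hz fun p hp => ?_
    have h2 : (2 : ℝ) ≤ p := by exact_mod_cast hp.two_le
    refine ⟨by positivity, ?_, ?_⟩
    · rw [div_le_iff₀ (by linarith)]
      linarith
    · exact div_le_div_of_nonneg_right (by norm_num) (by linarith)
  have h2 : ∑ p ∈ Pz z j, g p ≤ ∑ p ∈ Pz z j, κ * ((1 : ℝ) / p) := by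
    refine sum_le_sum fun p hp => ?_
    rw [Pz, mem_PI] at hp
    have := (hg p hp.1).2.2
    rw [mul_one_div]
    exact this
  rw [← mul_sum] at h2
  have h3 := mul_le_mul_of_nonneg_left h1 hκ
  linarith

/-- **The fundamental lemma, dimension `κ`.** -/
theorem FLk (κ : ℝ) (hκ : 0 ≤ κ) : ∃ C : ℝ, 1 ≤ C ∧ ∀ (z : ℝ) (b : ℕ) (g : ℕ → ℝ), 2 ≤ z → 1 ≤ b →
    (∀ p, p.Prime → 0 ≤ g p ∧ g p ≤ 3 / 4 ∧ g p ≤ κ / p) →
      VP g (PI 0 z) ≤ ∑ S ∈ (PI 0 z).powerset, lp' z b S * ∏ p ∈ S, g p ∧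
      ∑ S ∈ (PI 0 z).powerset, lp' z b S * ∏ p ∈ S, g p ≤
        VP g (PI 0 z) * (1 + C * Real.exp (-b)) ∧
      VP g (PI 0 z) * (1 - C * Real.exp (-b)) ≤
        ∑ S ∈ (PI 0 z).powerset, lm' z b S * ∏ p ∈ S, g p := by
  obtain ⟨S, hS1, hS⟩ := SumBlock κ hκ
  set v₀ := Real.exp (-(4 * S)) with hv₀
  have hv0 : 0 < v₀ := Real.exp_pos _
  have hv1 : v₀ ≤ 1 := Real.exp_le_one_iff.2 (by linarith)
  set A := Real.exp (Real.exp 1 * S) / v₀ with hA
  have hA1 : 1 ≤ A := by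
    rw [hA, le_div_iff₀ hv0, one_mul]
    exact hv1.trans (Real.one_le_exp (by positivity))
  set K := 2 * A with hK
  have hK1 : 1 ≤ K := by linarith
  refine ⟨K * Real.exp K, ?_, ?_⟩
  · have := Real.one_le_exp (show 0 ≤ K by linarith)
    nlinarith
  intro z b g hz hb hg
  have hgP : ∀ j, ∀ p ∈ Pz z j, 0 ≤ g p ∧ g p ≤ 3 / 4 := by
    intro j p hp
    rw [Pz, mem_PI] at hp
    exact ⟨(hg p hp.1).1, (hg p hp.1).2.1⟩
  have hgP1 : ∀ j, ∀ p ∈ Pz z j, 0 ≤ g p ∧ g p ≤ 1 := fun j p hp =>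
    ⟨(hgP j p hp).1, by linarith [(hgP j p hp).2]⟩
  have hv : ∀ j, v₀ ≤ VP g (Pz z j) := fun j => SPlB_VP g _ S (hgP j) (hS z j g hz hg)
  set ε : ℕ → ℝ := fun j => A * (Real.exp (-b) * Real.exp (-j)) with hε
  have hε0 : ∀ j, 0 ≤ ε j := fun j => by rw [hε]; positivity
  have hEl : ∀ j, 0 ≤ El g (Pz z j) (bz b j + 1) ∧ El g (Pz z j) (bz b j + 1) ≤ v₀ * ε j := by
    intro j
    have h1 := El_le g (Pz z j) (bz b j + 1) fun p hp => (hgP j p hp).1
    refine ⟨h1.1, h1.2.trans ?_⟩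
    have h2 : (∑ p ∈ Pz z j, g p) ^ (bz b j + 1) / ((bz b j + 1).factorial : ℝ) ≤
        S ^ (bz b j + 1) / ((bz b j + 1).factorial : ℝ) := by
      refine div_le_div_of_nonneg_right ?_ (by positivity)
      exact pow_le_pow_left₀ (sum_nonneg fun p hp => (hgP j p hp).1) (hS z j g hz hg) _
    refine h2.trans ((SPlB_fact S (by linarith) _).trans ?_)
    have h3 : v₀ * ε j = Real.exp (Real.exp 1 * S) * (Real.exp (-b) * Real.exp (-j)) := by
      rw [hε, hA]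
      field_simp
    rw [h3, ← Real.exp_add (-(b : ℝ)) (-(j : ℝ))]
    refine mul_le_mul_of_nonneg_left (Real.exp_le_exp.2 ?_) (Real.exp_pos _).le
    rw [bz]
    push_cast
    have h4 : (0 : ℝ) ≤ b := Nat.cast_nonneg b
    have h5 : (0 : ℝ) ≤ j := Nat.cast_nonneg j
    linarith
  have hUb : ∀ j, VP g (Pz z j) ≤ Ub g (Pz z j) (bz b j) ∧
      Ub g (Pz z j) (bz b j) ≤ VP g (Pz z j) * (1 + ε j) := by
    intro j
    have h1 := Ub_bounds g (Pz z j) (bz b j) ⟨b + j, by rw [bz]; ring⟩ (hgP1 j)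
    refine ⟨h1.1, h1.2.trans ?_⟩
    have h2 := (hEl j).2
    have h3 := mul_le_mul_of_nonneg_right (hv j) (hε0 j)
    linarith
  have hUpos : ∀ j, 0 < Ub g (Pz z j) (bz b j) := fun j => hv0.trans_le ((hv j).trans (hUb j).1)
  have hVpos : ∀ j, 0 < VP g (Pz z j) := fun j => hv0.trans_le (hv j)
  have hsum : ∑ j ∈ range (Jz z), ε j ≤ K * Real.exp (-b) := by
    rw [hε, ← mul_sum, ← mul_sum]
    have h1 := SPlB_geo (Jz z)
    have h2 : 0 ≤ A * Real.exp (-b) := by positivity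
    have h3 := mul_le_mul_of_nonneg_left h1 h2
    rw [hK]
    linarith
  have hsum0 : 0 ≤ ∑ j ∈ range (Jz z), ε j := sum_nonneg fun j _ => hε0 j
  have hb1 : Real.exp (-(b : ℝ)) ≤ 1 := Real.exp_le_one_iff.2 (by simp)
  have hbp := Real.exp_pos (-(b : ℝ))
  have hprod1 : VP g (PI 0 z) ≤ ∏ j ∈ range (Jz z), Ub g (Pz z j) (bz b j) := by
    rw [SPlB_VPblk g z hz]
    exact prod_le_prod (fun j _ => (hVpos j).le) fun j _ => (hUb j).1
  have hprod2 : ∏ j ∈ range (Jz z), Ub g (Pz z j) (bz b j) ≤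
      VP g (PI 0 z) * Real.exp (∑ j ∈ range (Jz z), ε j) := by
    rw [SPlB_VPblk g z hz, Real.exp_sum, ← prod_mul_distrib]
    refine prod_le_prod (fun j _ => (hUpos j).le) fun j _ => (hUb j).2.trans ?_
    refine mul_le_mul_of_nonneg_left ?_ (hVpos j).le
    have := Real.add_one_le_exp (ε j)
    linarith
  have hVV : 0 ≤ VP g (PI 0 z) := by
    rw [SPlB_VPblk g z hz]
    exact prod_nonneg fun j _ => (hVpos j).le
  have hexp : Real.exp (∑ j ∈ range (Jz z), ε j) ≤ 1 + K * Real.exp K * Real.exp (-b) := by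
    have h1 := SPlB_expx (∑ j ∈ range (Jz z), ε j)
    have h2 : Real.exp (∑ j ∈ range (Jz z), ε j) ≤ Real.exp K := by
      refine Real.exp_le_exp.2 (hsum.trans ?_)
      nlinarith
    have h3 : (∑ j ∈ range (Jz z), ε j) * Real.exp (∑ j ∈ range (Jz z), ε j) ≤
        (K * Real.exp (-b)) * Real.exp K :=
      mul_le_mul hsum h2 (Real.exp_pos _).le (by positivity)
    linarith
  have hlap : ∑ S ∈ (PI 0 z).powerset, lp' z b S * ∏ p ∈ S, g p =
      ∏ j ∈ range (Jz z), Ub g (Pz z j) (bz b j) := by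
    rw [← blk_Pz z hz]
    exact sum_lap g (Pz z) (bz b) (Jz z) fun i _ j _ h => Pz_disj z hz i j h
  have hlam : ∑ S ∈ (PI 0 z).powerset, lm' z b S * ∏ p ∈ S, g p =
      ∏ j ∈ range (Jz z), Ub g (Pz z j) (bz b j) -
      ∑ j ∈ range (Jz z), El g (Pz z j) (bz b j + 1) *
        ∏ i ∈ (range (Jz z)).erase j, Ub g (Pz z i) (bz b i) := by
    rw [← blk_Pz z hz]
    exact sum_lam g (Pz z) (bz b) (Jz z) fun i _ j _ h => Pz_disj z hz i j h
  rw [hlap, hlam]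
  refine ⟨hprod1, hprod2.trans (mul_le_mul_of_nonneg_left hexp hVV), ?_⟩
  have hUprod : 0 < ∏ j ∈ range (Jz z), Ub g (Pz z j) (bz b j) := prod_pos fun j _ => hUpos j
  have h1 : ∑ j ∈ range (Jz z), El g (Pz z j) (bz b j + 1) *
        ∏ i ∈ (range (Jz z)).erase j, Ub g (Pz z i) (bz b i) ≤
      ∑ j ∈ range (Jz z), ε j * ∏ i ∈ range (Jz z), Ub g (Pz z i) (bz b i) := by
    refine sum_le_sum fun j hj => ?_
    rw [← mul_prod_erase (range (Jz z)) _ hj, ← mul_assoc]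
    refine mul_le_mul_of_nonneg_right ?_ (prod_nonneg fun i _ => (hUpos i).le)
    have h2 := (hEl j).2
    have h3 := mul_le_mul_of_nonneg_left ((hv j).trans (hUb j).1) (hε0 j)
    linarith
  rw [← sum_mul] at h1
  have h2 : (∑ j ∈ range (Jz z), ε j) * ∏ i ∈ range (Jz z), Ub g (Pz z i) (bz b i) ≤
      (∑ j ∈ range (Jz z), ε j) * (VP g (PI 0 z) * Real.exp (∑ j ∈ range (Jz z), ε j)) :=
    mul_le_mul_of_nonneg_left hprod2 hsum0
  have h3 : (∑ j ∈ range (Jz z), ε j) * Real.exp (∑ j ∈ range (Jz z), ε j) ≤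
        (K * Real.exp (-b)) * Real.exp K := by
    have h2 : Real.exp (∑ j ∈ range (Jz z), ε j) ≤ Real.exp K := by
      refine Real.exp_le_exp.2 (hsum.trans ?_)
      nlinarith
    exact mul_le_mul hsum h2 (Real.exp_pos _).le (by positivity)
  have h4 := mul_le_mul_of_nonneg_left h3 hVV
  nlinarith

end Pool.Agent.Wd33b62k
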